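import Pool.Agent.H3.BCPoly

namespace Pool.Agent.Results.MP_e16cac_co.Counterexample

open Finset Pool.Agent.H3.BCPoly
open scoped Matroid

open Classical in
/-- the spanning-set polynomial `S_M(v)` -/
noncomputable def spanPoly {α : Type} [Fintype α] (M : Matroid α) (v : α → ℂ) : ℂ :=
  ∑ A ∈ (univ : Finset (Finset α)).filter (fun A : Finset α => M.Spanning (↑A : Set α)), ∏ e ∈ A, v e

/-- the multivariate Brown-Colbourn property -/
def BC {α : Type} [Fintype α] (M : Matroid α) : Prop :=
  ∀ v : α → ℂ, (∀ e ∈ M.E, ‖1 + v e‖ < 1) → spanPoly M v ≠ 0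

/-- simple matroid: no loops and no two parallel elements -/
def Simple {α : Type} (M : Matroid α) : Prop :=
  (∀ e, ¬ M.IsLoop e) ∧ ∀ e f, e ≠ f → ¬ M.IsCircuit {e, f}

abbrev Gr := Fin 7 ⊕ Fin 8

noncomputable def N0 : Matroid Gr :=
  (IndepMatroid.ofFinset (Set.univ : Set Gr) (fun I => I.toRight.card ≤ 7 ∧ I.card ≤ 12)
    (by decide)
    (by
      intro I J hJ hIJ
      exact ⟨(card_le_card (toRight_subset_toRight hIJ)).trans hJ.1, (card_le_card hIJ).trans hJ.2⟩)
    (by
      intro I J hI hJ hlt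
      by_cases h : I.toRight.card < 7
      · obtain ⟨e, heJ, heI⟩ := exists_mem_notMem_of_card_lt_card hlt
        refine ⟨e, heJ, heI, ?_, ?_⟩
        · cases e with
          | inl a => simpa using hI.1
          | inr b =>
            rw [toRight_insert_inr]
            exact (card_insert_le _ _).trans (by omega)
        · rw [card_insert_of_notMem heI]; omega
      · have h1 := @card_toLeft_add_card_toRight _ _ I
        have h2 := @card_toLeft_add_card_toRight _ _ J
        have h3 : I.toLeft.card < J.toLeft.card := by omega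
        obtain ⟨a, haJ, haI⟩ := exists_mem_notMem_of_card_lt_card h3
        have haI' : (Sum.inl a : Gr) ∉ I := by simpa using haI
        refine ⟨Sum.inl a, by simpa using haJ, haI', by simpa using hI.1, ?_⟩
        rw [card_insert_of_notMem haI']; omega)
    (by simp)).matroid

lemma N0_indep (I : Finset Gr) : N0.Indep (I : Set Gr) ↔ I.toRight.card ≤ 7 ∧ I.card ≤ 12 := by
  simp [N0]

lemma N0_E : N0.E = Set.univ := rfl

open Classical in
lemma par_sum {β κ : Type} [Fintype β] [DecidableEq β] [DecidableEq κ] (w : β × κ → ℂ)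
    (E : Finset (β × κ)) : ∀ ψ : Finset β → ℂ,
    ∑ I ∈ E.powerset, (if Set.InjOn Prod.fst (I : Set (β × κ)) then ψ (I.image Prod.fst) else 0) *
        ∏ x ∈ I, w x =
      ∑ J ∈ (univ : Finset β).powerset, ψ J * ∏ g ∈ J, ∑ x ∈ E.filter (fun x => x.1 = g), w x := by
  induction E using Finset.induction_on with
  | empty =>
    intro ψ
    rw [Finset.sum_eq_single (∅ : Finset β) (s := (univ : Finset β).powerset)]
    · simp
    · intro J _ hJ
      obtain ⟨g, hg⟩ := nonempty_iff_ne_empty.2 hJ
      rw [Finset.prod_eq_zero hg (by simp), mul_zero]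
    · simp
  | insert x E hx ih =>
    intro ψ
    rw [Finset.sum_powerset_insert hx, ih ψ]
    have h2 : ∑ I ∈ E.powerset, (if Set.InjOn Prod.fst ((insert x I : Finset _) : Set (β × κ)) then
          ψ ((insert x I).image Prod.fst) else 0) * ∏ y ∈ insert x I, w y =
        w x * ∑ I ∈ E.powerset, (if Set.InjOn Prod.fst (I : Set (β × κ)) then
          (fun J => if x.1 ∈ J then 0 else ψ (insert x.1 J)) (I.image Prod.fst) else 0) *
            ∏ y ∈ I, w y := by
      rw [Finset.mul_sum]
      refine Finset.sum_congr rfl fun I hI => ?_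
      have hxI : x ∉ I := fun h => hx (mem_powerset.1 hI h)
      have hinj : Set.InjOn Prod.fst ((insert x I : Finset _) : Set (β × κ)) ↔
          Set.InjOn Prod.fst (I : Set (β × κ)) ∧ x.1 ∉ I.image Prod.fst := by
        rw [coe_insert, Set.injOn_insert (by simpa using hxI), ← coe_image, mem_coe]
      rw [prod_insert hxI, image_insert]
      by_cases a : Set.InjOn Prod.fst (I : Set (β × κ))
      · by_cases b : x.1 ∈ I.image Prod.fst
        · rw [if_neg (fun h => (hinj.1 h).2 b), if_pos a]
          simp only [if_pos b]; ring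
        · rw [if_pos (hinj.2 ⟨a, b⟩), if_pos a]
          simp only [if_neg b]; ring
      · rw [if_neg (fun h => a (hinj.1 h).1), if_neg a]; ring
    rw [h2, ih (fun J => if x.1 ∈ J then 0 else ψ (insert x.1 J))]
    have hu : (univ : Finset β) = insert x.1 (univ.erase x.1) := by simp
    have hn : x.1 ∉ (univ : Finset β).erase x.1 := by simp
    rw [hu]
    simp only [Finset.sum_powerset_insert hn]
    have hW : ∀ g, ∑ y ∈ (insert x E).filter (fun y => y.1 = g), w y =
        (if x.1 = g then w x else 0) + ∑ y ∈ E.filter (fun y => y.1 = g), w y := by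
      intro g
      rw [filter_insert]
      split_ifs with h
      · rw [sum_insert (by simp [hx])]
      · simp
    simp only [hW, mul_add, Finset.mul_sum, ← Finset.sum_add_distrib]
    refine Finset.sum_congr rfl fun J hJ => ?_
    have hJ' : x.1 ∉ J := fun h => hn (mem_powerset.1 hJ h)
    have hp : ∏ g ∈ J, ((if x.1 = g then w x else 0) + ∑ y ∈ E.filter (fun y => y.1 = g), w y) =
        ∏ g ∈ J, ∑ y ∈ E.filter (fun y => y.1 = g), w y := by
      refine Finset.prod_congr rfl fun g hg => ?_
      rw [if_neg (fun h : x.1 = g => hJ' (h ▸ hg)), zero_add]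
    rw [prod_insert hJ', prod_insert hJ', hp]
    simp [hJ']
    ring

lemma F_eq (W : Gr → ℂ) :
    ∑ J ∈ (univ : Finset Gr).powerset, phi J.toLeft.card J.toRight.card * ∏ g ∈ J, W g =
      F (fun i => W (Sum.inl i)) (fun i => W (Sum.inr i)) := by
  unfold F
  simp only [powerset_univ, Finset.sum_mul]
  rw [← Fintype.sum_prod_type', ← (Finset.sumEquiv (α := Fin 7) (β := Fin 8)).symm.toEquiv.sum_comp]
  refine Finset.sum_congr rfl fun p _ => ?_
  change phi (p.1.disjSum p.2).toLeft.card (p.1.disjSum p.2).toRight.card *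
    ∏ g ∈ p.1.disjSum p.2, W g = _
  rw [toLeft_disjSum, toRight_disjSum, prod_disjSum]
  ring

set_option linter.unusedSectionVars false

section
variable {κ : Type} [Fintype κ] [DecidableEq κ]

noncomputable def N (κ : Type) : Matroid (Gr × κ) := N0.comap Prod.fst

lemma N_indep (I : Finset (Gr × κ)) : (N κ).Indep (I : Set (Gr × κ)) ↔
    Set.InjOn Prod.fst (I : Set (Gr × κ)) ∧ (I.image Prod.fst).toRight.card ≤ 7 ∧
      (I.image Prod.fst).card ≤ 12 := by
  rw [N, Matroid.comap_indep_iff, ← coe_image, N0_indep, and_comm]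

noncomputable def MY (Y : Finset (Gr × κ)) : Matroid (Gr × κ) := (N κ ＼ (Y : Set (Gr × κ)))✶

lemma MY_E (Y : Finset (Gr × κ)) : (MY Y).E = ((univ \ Y : Finset (Gr × κ)) : Set (Gr × κ)) := by
  simp [MY, N, N0_E]

lemma MY_contract (Y : Finset (Gr × κ)) (e : Gr × κ) : MY Y ／ {e} = MY (insert e Y) := by
  rw [MY, ← Matroid.dual_delete, Matroid.delete_delete, MY, coe_insert, Set.union_singleton]

lemma MY_span (Y A : Finset (Gr × κ)) : (MY Y).Spanning (A : Set (Gr × κ)) ↔
    A ⊆ univ \ Y ∧ (N κ).Indep (((univ \ Y) \ A : Finset (Gr × κ)) : Set (Gr × κ)) := by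
  by_cases h : A ⊆ univ \ Y
  · have h' : (A : Set (Gr × κ)) ⊆ (MY Y).E := by rw [MY_E]; exact_mod_cast h
    rw [Matroid.spanning_iff_compl_coindep h', Matroid.coindep_def, MY_E, MY, Matroid.dual_dual,
      Matroid.delete_indep_iff, ← coe_sdiff]
    simp only [h, true_and, and_iff_left_iff_imp]
    intro _
    rw [disjoint_coe]
    exact disjoint_of_subset_left sdiff_subset sdiff_disjoint
  · simp only [h, false_and, iff_false]
    intro hs
    apply h
    have := hs.subset_ground
    rw [MY_E] at this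
    exact_mod_cast this

lemma span_eq (Y : Finset (Gr × κ)) (v : Gr × κ → ℂ) (hv : ∀ e ∈ univ \ Y, v e ≠ 0) :
    spanPoly (MY Y) v = (∏ e ∈ univ \ Y, v e) *
      F (fun i => ∑ x ∈ (univ \ Y).filter (fun x => x.1 = Sum.inl i), (v x)⁻¹)
        (fun i => ∑ x ∈ (univ \ Y).filter (fun x => x.1 = Sum.inr i), (v x)⁻¹) := by
  classical
  rw [← F_eq (fun g => ∑ x ∈ (univ \ Y).filter (fun x => x.1 = g), (v x)⁻¹),
    ← par_sum (fun x => (v x)⁻¹) (univ \ Y) (fun J => phi J.toLeft.card J.toRight.card),
    Finset.mul_sum, spanPoly, Finset.sum_filter]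
  rw [← Finset.sum_subset (subset_univ (univ \ Y).powerset) (by
    intro A _ hA
    rw [if_neg]
    rw [MY_span]
    exact fun h => hA (mem_powerset.2 h.1))]
  refine Finset.sum_nbij' (fun A => (univ \ Y) \ A) (fun A => (univ \ Y) \ A) ?_ ?_ ?_ ?_ ?_
  · intro A _; exact mem_powerset.2 sdiff_subset
  · intro A _; exact mem_powerset.2 sdiff_subset
  · intro A hA; exact Finset.sdiff_sdiff_eq_self (mem_powerset.1 hA)
  · intro A hA; exact Finset.sdiff_sdiff_eq_self (mem_powerset.1 hA)
  · intro A hA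
    have hA' := mem_powerset.1 hA
    have hp : ∏ e ∈ A, v e = (∏ e ∈ univ \ Y, v e) * ∏ x ∈ (univ \ Y) \ A, (v x)⁻¹ := by
      rw [← Finset.prod_sdiff hA', prod_inv_distrib]
      have : ∏ x ∈ (univ \ Y) \ A, v x ≠ 0 :=
        prod_ne_zero_iff.2 fun x hx => hv x (sdiff_subset hx)
      field_simp
    rw [MY_span, N_indep, hp]
    have hc := @card_toLeft_add_card_toRight _ _ (((univ \ Y) \ A).image Prod.fst)
    simp only [hA', true_and, phi, hc]
    by_cases a : Set.InjOn Prod.fst (((univ \ Y) \ A : Finset (Gr × κ)) : Set (Gr × κ)) <;>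
      by_cases b : (((univ \ Y) \ A).image Prod.fst).toRight.card ≤ 7 ∧
        (((univ \ Y) \ A).image Prod.fst).card ≤ 12 <;> simp only [a, b] <;> simp

lemma disc_iff (v : ℂ) (h : ‖1 + v‖ < 1) : v ≠ 0 ∧ (v⁻¹).re < -(1 / 2 : ℝ) := by
  have hv : v ≠ 0 := by rintro rfl; simp at h
  refine ⟨hv, ?_⟩
  have h2 : ‖1 + v‖ ^ 2 < 1 := by nlinarith [norm_nonneg (1 + v)]
  rw [← Complex.normSq_eq_norm_sq, Complex.normSq_apply] at h2
  have hn : 0 < Complex.normSq v := Complex.normSq_pos.2 hv
  rw [Complex.inv_re, div_lt_iff₀ hn, Complex.normSq_apply]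
  simp at h2
  nlinarith

lemma disc_of (w : ℂ) (h : w.re < -(1 / 2 : ℝ)) : ‖1 + w⁻¹‖ < 1 := by
  have hw : w ≠ 0 := by rintro rfl; simp at h; linarith
  have e : 1 + w⁻¹ = (w + 1) / w := by field_simp
  rw [e, norm_div, div_lt_one (norm_pos_iff.2 hw)]
  refine lt_of_pow_lt_pow_left₀ 2 (norm_nonneg _) ?_
  rw [← Complex.normSq_eq_norm_sq, ← Complex.normSq_eq_norm_sq, Complex.normSq_apply,
    Complex.normSq_apply]
  simp
  nlinarith

lemma top_BC (hκ : Fintype.card κ = 12000) : BC (MY (∅ : Finset (Gr × κ))) := by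
  intro v hv
  have hv' : ∀ e, v e ≠ 0 ∧ ((v e)⁻¹).re < -(1 / 2 : ℝ) := fun e =>
    disc_iff _ (hv e (by rw [MY_E]; simp))
  rw [span_eq _ _ (fun e _ => (hv' e).1)]
  refine mul_ne_zero (prod_ne_zero_iff.2 fun e _ => (hv' e).1) ?_
  have key : ∀ g : Gr, (∑ x ∈ ((univ : Finset (Gr × κ)) \ ∅).filter (fun x => x.1 = g),
      (v x)⁻¹).re < -(6000 : ℝ) := by
    intro g
    have hf : ((univ : Finset (Gr × κ)) \ ∅).filter (fun x => x.1 = g) =
        (univ : Finset κ).image (fun k => (g, k)) := by
      ext ⟨a, b⟩; simp [eq_comm]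
    rw [hf, Finset.sum_image (by intro a _ b _ h; simpa using h), Complex.re_sum]
    have hne : (univ : Finset κ).Nonempty := by
      rw [← card_pos, card_univ, hκ]; norm_num
    have := Finset.sum_lt_sum_of_nonempty hne (f := fun k => ((v (g, k))⁻¹).re)
      (g := fun _ => -(1 / 2 : ℝ)) (fun k _ => (hv' (g, k)).2)
    rw [sum_const, card_univ, hκ] at this
    norm_num at this ⊢
    linarith
  exact F_ne _ _ (fun i => key _) (fun i => key _)

lemma bot_not (k0 : κ) : ¬ BC (MY ((univ : Finset (Gr × κ)).filter (fun x => x.2 ≠ k0))) := by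
  intro h
  obtain ⟨WA, WB, hA, hB, h0⟩ := F_zero
  set W : Gr → ℂ := Sum.elim WA WB with hW
  have hWr : ∀ g, (W g).re < -(1 / 2 : ℝ) := by
    rintro (i | i)
    · exact hA i
    · exact hB i
  apply h (fun x => (W x.1)⁻¹) (fun e _ => disc_of _ (hWr _))
  rw [span_eq _ _ (fun e _ => (disc_iff _ (disc_of _ (hWr _))).1)]
  have key : ∀ g : Gr, ∑ x ∈ ((univ : Finset (Gr × κ)) \ univ.filter (fun x => x.2 ≠ k0)).filter
      (fun x => x.1 = g), ((W x.1)⁻¹)⁻¹ = W g := by
    intro g
    have hf : ((univ : Finset (Gr × κ)) \ univ.filter (fun x => x.2 ≠ k0)).filter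
        (fun x => x.1 = g) = {(g, k0)} := by
      ext ⟨a, b⟩; simp [and_comm]
    rw [hf]; simp
  simp only [key]
  have : F (fun i => W (Sum.inl i)) (fun i => W (Sum.inr i)) = 0 := h0
  rw [this, mul_zero]

lemma pair_indep (k0 : κ) (Y : Finset (Gr × κ)) (hY : ∀ x ∈ Y, x.2 ≠ k0) (e f : Gr × κ)
    (he : e ∈ (MY Y).E) (hf : f ∈ (MY Y).E) : (MY Y).Indep {e, f} := by
  obtain ⟨B0, hB0, hc⟩ : ∃ B0 ⊆ (univ : Finset Gr) \ {e.1, f.1, Sum.inr 0}, B0.card = 12 := by
    apply exists_subset_card_eq
    have h1 : ({e.1, f.1, Sum.inr 0} : Finset Gr).card ≤ 3 := card_le_three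
    rw [card_sdiff_of_subset (subset_univ _)]
    simp only [card_univ, Fintype.card_sum, Fintype.card_fin]
    omega
  have hR : B0.toRight.card ≤ 7 := by
    have : B0.toRight ⊆ univ.erase 0 := by
      intro b hb
      have := hB0 (mem_toRight.1 hb)
      simp only [mem_sdiff, mem_univ, mem_insert, mem_singleton, true_and, not_or] at this
      simp only [mem_erase, mem_univ, and_true]
      rintro rfl
      exact this.2.2 rfl
    refine (card_le_card this).trans ?_
    simp
  set B : Finset (Gr × κ) := B0.image (fun g => (g, k0)) with hB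
  have hBi : B.image Prod.fst = B0 := by
    rw [hB, image_image]; simp [Function.comp_def]
  have hBc : B.card = 12 := by
    rw [hB, card_image_of_injective _ (fun a b h => by simpa using h), hc]
  rw [MY, Matroid.dual_indep_iff_exists']
  refine ⟨?_, (B : Set (Gr × κ)), ?_, ?_⟩
  · intro x hx
    rcases hx with rfl | rfl
    · exact he
    · exact hf
  · apply Matroid.Indep.isBase_of_forall_insert
    · rw [Matroid.delete_indep_iff, N_indep, hBi]
      refine ⟨⟨?_, hR, hc.le⟩, ?_⟩
      · intro a ha b hb hab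
        simp only [hB, coe_image, Set.mem_image] at ha hb
        obtain ⟨a', _, rfl⟩ := ha
        obtain ⟨b', _, rfl⟩ := hb
        simp only at hab
        rw [hab]
      · rw [Set.disjoint_left]
        intro a ha hy
        simp only [hB, coe_image, Set.mem_image] at ha
        obtain ⟨a', _, rfl⟩ := ha
        exact hY _ hy rfl
    · intro x hx hi
      rw [Matroid.delete_indep_iff, ← coe_insert, N_indep] at hi
      obtain ⟨⟨h1, _, h3⟩, _⟩ := hi
      rw [card_image_of_injOn h1, card_insert_of_notMem (by simpa using hx.2)] at h3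
      omega
  · rw [Set.disjoint_left]
    intro x hx hxB
    simp only [hB, coe_image, Set.mem_image] at hxB
    obtain ⟨a, ha, hax⟩ := hxB
    have := hB0 ha
    simp only [mem_sdiff, mem_univ, mem_insert, mem_singleton, true_and, not_or] at this
    rcases hx with rfl | rfl
    · exact this.1 (by rw [← hax])
    · exact this.2.1 (by rw [← hax])

lemma simple (k0 : κ) (Y : Finset (Gr × κ)) (hY : ∀ x ∈ Y, x.2 ≠ k0) : Simple (MY Y) := by
  constructor
  · intro e he
    have := pair_indep k0 Y hY e e he.mem_ground he.mem_ground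
    exact he.not_indep_of_mem (by simp) this
  · intro e f _ hc
    have h := hc.subset_ground
    exact hc.dep.not_indep (pair_indep k0 Y hY e f (h (by simp)) (h (by simp)))

end

theorem result : ∃ (α : Type) (_ : Fintype α) (M : Matroid α) (e : α),
    e ∈ M.E ∧ Simple M ∧ BC M ∧ ¬ BC (M ／ {e}) := by
  classical
  obtain ⟨κ, _, hκ⟩ : ∃ (κ : Type) (_ : Fintype κ), Fintype.card κ = 12000 :=
    ⟨Fin 12000, inferInstance, Fintype.card_fin _⟩
  obtain ⟨k0⟩ : Nonempty κ := by rw [← Fintype.card_pos_iff, hκ]; norm_num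
  by_contra hcon
  push Not at hcon
  have main : ∀ Y : Finset (Gr × κ), (∀ x ∈ Y, x.2 ≠ k0) → BC (MY Y) := by
    intro Y
    induction Y using Finset.induction_on with
    | empty => intro _; exact top_BC hκ
    | insert x Y hx ih =>
      intro h
      have hY : ∀ y ∈ Y, y.2 ≠ k0 := fun y hy => h y (mem_insert_of_mem hy)
      rw [← MY_contract]
      exact hcon (Gr × κ) inferInstance (MY Y) x (by rw [MY_E]; simpa using hx)
        (simple k0 Y hY) (ih hY)
  exact bot_not k0 (main _ (by simp))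

end Pool.Agent.Results.MP_e16cac_co.Counterexample
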